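import Mathlib
import Pool.Agent.H42.CircMain

set_option autoImplicit false

namespace Pool.Agent.Results.MP_e2537c_al.AllN

open Real

/-- A cyclically (counterclockwise) ordered tuple of distinct points of the circle: the points are
`exp (t i)` for angles `t 0 < t 1 < ... < t (n-1)` lying in an arc of length less than `2 π`. -/
def CycTuple (n : ℕ) (x : Fin n → Circle) : Prop :=
  ∃ t : Fin n → ℝ, StrictMono t ∧ (∀ i j, t j < t i + 2 * π) ∧ ∀ i, x i = Circle.exp (t i)

/-- A group of homeomorphisms of the circle is cyclically `n`-transitive. -/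
def CycTransitive (n : ℕ) (Γ : Subgroup (Circle ≃ₜ Circle)) : Prop :=
  ∀ x y : Fin n → Circle, CycTuple n x → CycTuple n y → ∃ γ ∈ Γ, ∀ i, x i = γ (y i)

/-- For every `n ≥ 1` there is a group of homeomorphisms of the circle which is cyclically
`n`-transitive but not cyclically `(n+1)`-transitive. -/
theorem result (n : ℕ) (hn : 1 ≤ n) :
    ∃ Γ : Subgroup (Circle ≃ₜ Circle), CycTransitive n Γ ∧ ¬ CycTransitive (n + 1) Γ :=
  Pool.Agent.H42.Circ.main n hn

end Pool.Agent.Results.MP_e2537c_al.AllN
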